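import Mathlib
import Pool.Agent.Q38.GE.Stm

/-! Job GE-DIV (34559) of project GE (helper38): division rings inside matrix rings over fields. -/

set_option autoImplicit false

open Matrix

namespace Pool.Agent.Q139.GE

noncomputable section

section abs

variable {K E : Type} [Field K] [Field E] [Algebra K E] {m : ℕ}

/-- the weight of an edge of the cycle -/
def cc {S : Type} [One S] (τ : S) (i : Fin (m + 1)) : S := if i = Fin.last m then τ else 1

/-- the twisted cyclic permutation matrix -/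
def PP (m : ℕ) (τ : E) : Matrix (Fin (m + 1)) (Fin (m + 1)) E := fun i j => if j = i + 1 then cc τ i else 0

/-- the twisted centralizer -/
def DD (m : ℕ) (σ : E →ₐ[K] E) (τ : E) : Subalgebra K (Matrix (Fin (m + 1)) (Fin (m + 1)) E) where
  carrier := {M | σ.mapMatrix M * PP m τ = PP m τ * M}
  mul_mem' := by
    intro a b ha hb
    simp only [Set.mem_ofPred_eq] at ha hb ⊢
    rw [map_mul, mul_assoc, hb, ← mul_assoc, ha, mul_assoc]
  add_mem' := by
    intro a b ha hb
    simp only [Set.mem_ofPred_eq] at ha hb ⊢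
    rw [map_add, add_mul, ha, hb, mul_add]
  algebraMap_mem' := by
    intro k
    simp only [Set.mem_ofPred_eq]
    rw [AlgHom.commutes, Algebra.commutes]

theorem PP_mul (τ : E) (M : Matrix (Fin (m + 1)) (Fin (m + 1)) E) (i j : Fin (m + 1)) :
    (PP m τ * M) i j = cc τ i * M (i + 1) j := by
  rw [Matrix.mul_apply, Finset.sum_eq_single (i + 1)]
  · simp [PP]
  · intro b _ hb
    simp [PP, hb]
  · intro h
    exact absurd (Finset.mem_univ _) h

theorem mul_PP (τ : E) (M : Matrix (Fin (m + 1)) (Fin (m + 1)) E) (i j : Fin (m + 1)) :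
    (M * PP m τ) i (j + 1) = M i j * cc τ j := by
  rw [Matrix.mul_apply, Finset.sum_eq_single j]
  · simp [PP]
  · intro b _ hb
    have : j + 1 ≠ b + 1 := fun h => hb (add_right_cancel h).symm
    simp [PP, this]
  · intro h
    exact absurd (Finset.mem_univ _) h

theorem mem_DD (σ : E →ₐ[K] E) (τ : E) (M : Matrix (Fin (m + 1)) (Fin (m + 1)) E) :
    M ∈ DD m σ τ ↔ ∀ i j, σ (M i j) * cc τ j = cc τ i * M (i + 1) (j + 1) := by
  constructor
  · intro h i j
    have h1 : σ.mapMatrix M * PP m τ = PP m τ * M := h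
    have h2 := congrFun (congrFun h1 i) (j + 1)
    rw [PP_mul, mul_PP] at h2
    exact h2
  · intro h
    change σ.mapMatrix M * PP m τ = PP m τ * M
    ext i j
    obtain ⟨j', rfl⟩ : ∃ j', j = j' + 1 := ⟨j - 1, (sub_add_cancel j 1).symm⟩
    rw [PP_mul, mul_PP]
    exact h i j'

theorem cyc (p : Fin (m + 1) → Prop) (h : ∀ i, p i → p (i + 1)) (i₀ : Fin (m + 1)) (h₀ : p i₀) : ∀ j, p j := by
  have h1 : ∀ k : Fin (m + 1), p (i₀ + k) := by
    intro k
    induction k using Fin.induction with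
    | zero => simpa using h₀
    | succ k ih =>
      rw [← Fin.coeSucc_eq_succ, ← add_assoc]
      exact h _ ih
  intro j
  have := h1 (j - i₀)
  rwa [add_sub_cancel] at this

/-- a degree function on the field `E`, invariant under `σ` -/
structure IsDeg (σ : E →ₐ[K] E) (τ : E) (d : E → ℤ) : Prop where
  mul : ∀ x y, x ≠ 0 → y ≠ 0 → d (x * y) = d x + d y
  add : ∀ x y, x ≠ 0 → y ≠ 0 → x + y ≠ 0 → d (x + y) ≤ max (d x) (d y)
  map : ∀ x, x ≠ 0 → d (σ x) = d x
  tau0 : τ ≠ 0
  tau : d τ = 1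

variable {σ : E →ₐ[K] E} {τ : E} {d : E → ℤ}

theorem IsDeg.one (h : IsDeg σ τ d) : d 1 = 0 := by
  have := h.mul 1 1 one_ne_zero one_ne_zero
  rw [mul_one] at this
  linarith

theorem IsDeg.neg (h : IsDeg σ τ d) (x : E) (hx : x ≠ 0) : d (-x) = d x := by
  have h1 := h.mul (-1) (-1) (neg_ne_zero.2 one_ne_zero) (neg_ne_zero.2 one_ne_zero)
  rw [neg_mul_neg, one_mul, h.one] at h1
  have h2 := h.mul (-1) x (neg_ne_zero.2 one_ne_zero) hx
  rw [neg_one_mul] at h2
  linarith

theorem IsDeg.sum (h : IsDeg σ τ d) {ι : Type} (s : Finset ι) (f : ι → E) (N : ℤ)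
    (hf : ∀ i ∈ s, f i = 0 ∨ d (f i) < N) : (∑ i ∈ s, f i) = 0 ∨ d (∑ i ∈ s, f i) < N := by
  refine Finset.sum_induction f (fun x => x = 0 ∨ d x < N) ?_ (Or.inl rfl) hf
  intro a b ha hb
  by_cases h0 : a + b = 0
  · exact Or.inl h0
  · right
    by_cases ha0 : a = 0
    · subst ha0
      rw [zero_add] at h0 ⊢
      exact hb.resolve_left h0
    by_cases hb0 : b = 0
    · subst hb0
      rw [add_zero] at h0 ⊢
      exact ha.resolve_left h0
    exact lt_of_le_of_lt (h.add a b ha0 hb0 h0) (max_lt (ha.resolve_left ha0) (hb.resolve_left hb0))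

theorem IsDeg.cc_ne (h : IsDeg σ τ d) (i : Fin (m + 1)) : cc τ i ≠ 0 := by
  unfold cc
  split_ifs
  · exact h.tau0
  · exact one_ne_zero

theorem IsDeg.cc_deg (h : IsDeg σ τ d) (i : Fin (m + 1)) :
    (((i + 1 : Fin (m + 1)) : ℕ) : ℤ) = (i : ℕ) + 1 - (m + 1) * d (cc τ i) := by
  unfold cc
  split_ifs with hi
  · subst hi
    rw [h.tau, Fin.last_add_one]
    simp
  · rw [h.one, Fin.val_add_one_of_lt (lt_of_le_of_ne (Fin.le_last i) hi)]
    push_cast
    ring

/-- the weight of an entry -/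
def WW (d : E → ℤ) (M : Matrix (Fin (m + 1)) (Fin (m + 1)) E) (i j : Fin (m + 1)) : ℤ :=
  (m + 1) * d (M i j) + (j : ℕ) - (i : ℕ)

theorem IsDeg.step (h : IsDeg σ τ d) (M : Matrix (Fin (m + 1)) (Fin (m + 1)) E) (hM : M ∈ DD m σ τ)
    (i j : Fin (m + 1)) (h0 : M i j ≠ 0) : M (i + 1) (j + 1) ≠ 0 ∧ WW d M (i + 1) (j + 1) = WW d M i j := by
  have h1 := (mem_DD σ τ M).1 hM i j
  have hs : σ (M i j) ≠ 0 := (map_ne_zero σ).2 h0
  have h2 : M (i + 1) (j + 1) ≠ 0 := by
    intro h3
    rw [h3, mul_zero] at h1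
    exact mul_ne_zero hs (h.cc_ne j) h1
  refine ⟨h2, ?_⟩
  have h3 := congrArg d h1
  rw [h.mul _ _ hs (h.cc_ne j), h.mul _ _ (h.cc_ne i) h2, h.map _ h0] at h3
  unfold WW
  rw [h.cc_deg i, h.cc_deg j]
  have : d (M (i + 1) (j + 1)) = d (M i j) + d (cc τ j) - d (cc τ i) := by linarith
  rw [this]
  ring

theorem IsDeg.det_ne (h : IsDeg σ τ d) (M : Matrix (Fin (m + 1)) (Fin (m + 1)) E) (hM : M ∈ DD m σ τ)
    (h0 : M ≠ 0) : M.det ≠ 0 := by
  classical
  intro hdet
  obtain ⟨v, hv, hMv⟩ := Matrix.exists_mulVec_eq_zero_iff.2 hdet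
  -- the column
  have hne : (Finset.univ.filter fun j => v j ≠ 0).Nonempty := by
    obtain ⟨j, hj⟩ := Function.ne_iff.1 hv
    exact ⟨j, by simpa using hj⟩
  obtain ⟨j₁, hj₁, hmax⟩ := Finset.exists_max_image _ (fun j : Fin (m + 1) => (m + 1) * d (v j) - ((j : ℕ) : ℤ)) hne
  have hj₁0 : v j₁ ≠ 0 := (Finset.mem_filter.1 hj₁).2
  -- the entry
  have hne2 : (Finset.univ.filter fun p : Fin (m + 1) × Fin (m + 1) => M p.1 p.2 ≠ 0).Nonempty := by
    by_contra hcon
    rw [Finset.not_nonempty_iff_eq_empty, Finset.filter_eq_empty_iff] at hcon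
    apply h0
    ext i j
    have := @hcon (i, j) (Finset.mem_univ _)
    simpa using this
  obtain ⟨p, hp, hpmax⟩ := Finset.exists_max_image _ (fun p : Fin (m + 1) × Fin (m + 1) => WW d M p.1 p.2) hne2
  have hp0 : M p.1 p.2 ≠ 0 := (Finset.mem_filter.1 hp).2
  obtain ⟨i, hi1, hi2⟩ : ∃ i, M i j₁ ≠ 0 ∧ WW d M i j₁ = WW d M p.1 p.2 := by
    refine cyc (fun j => ∃ i, M i j ≠ 0 ∧ WW d M i j = WW d M p.1 p.2) ?_ p.2 ⟨p.1, hp0, rfl⟩ j₁
    rintro j ⟨i, h1, h2⟩
    obtain ⟨h3, h4⟩ := h.step M hM i j h1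
    exact ⟨i + 1, h3, h4.trans h2⟩
  have hrow : ∑ j, M i j * v j = 0 := congrFun hMv i
  rw [← Finset.add_sum_erase _ _ (Finset.mem_univ j₁)] at hrow
  have hsum := h.sum (Finset.univ.erase j₁) (fun j => M i j * v j) (d (M i j₁ * v j₁)) ?_
  · have hxne : M i j₁ * v j₁ ≠ 0 := mul_ne_zero hi1 hj₁0
    have hS : ∑ j ∈ Finset.univ.erase j₁, M i j * v j = -(M i j₁ * v j₁) := by
      rw [eq_neg_iff_add_eq_zero, add_comm]
      exact hrow
    rw [hS, h.neg _ hxne] at hsum
    rcases hsum with hsum | hsum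
    · exact hxne (neg_eq_zero.1 hsum)
    · exact lt_irrefl _ hsum
  · intro j hj
    by_cases hx : M i j * v j = 0
    · exact Or.inl hx
    right
    have hM0 : M i j ≠ 0 := left_ne_zero_of_mul hx
    have hv0 : v j ≠ 0 := right_ne_zero_of_mul hx
    have e1 := hmax j (by simpa using hv0)
    have e2 := hpmax (i, j) (by simpa using hM0)
    simp only at e2
    rw [← hi2] at e2
    unfold WW at e2
    rw [h.mul _ _ hM0 hv0, h.mul _ _ hi1 hj₁0]
    have hjne : ((j : ℕ) : ℤ) ≠ ((j₁ : ℕ) : ℤ) := by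
      intro h5
      exact (Finset.ne_of_mem_erase hj) (Fin.ext (by exact_mod_cast h5))
    have hb1 : ((j : ℕ) : ℤ) < m + 1 := by exact_mod_cast j.2
    have hb2 : ((j₁ : ℕ) : ℤ) < m + 1 := by exact_mod_cast j₁.2
    have hb3 : (0 : ℤ) ≤ ((j : ℕ) : ℤ) := by positivity
    have hb4 : (0 : ℤ) ≤ ((j₁ : ℕ) : ℤ) := by positivity
    by_contra hcon
    push Not at hcon
    have e3 : ((m : ℤ) + 1) * (d (M i j₁) + d (v j₁)) ≤ ((m : ℤ) + 1) * (d (M i j) + d (v j)) :=
      mul_le_mul_of_nonneg_left hcon (by positivity)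
    have e4 : ((m : ℤ) + 1) * (d (v j) - d (v j₁)) = ((j : ℕ) : ℤ) - ((j₁ : ℕ) : ℤ) := by linarith
    rcases lt_trichotomy (d (v j) - d (v j₁)) 0 with h6 | h6 | h6
    · have : ((m : ℤ) + 1) * (d (v j) - d (v j₁)) ≤ ((m : ℤ) + 1) * (-1) :=
        mul_le_mul_of_nonneg_left (by linarith) (by positivity)
      linarith
    · rw [h6, mul_zero] at e4
      exact hjne (by linarith)
    · have : ((m : ℤ) + 1) * 1 ≤ ((m : ℤ) + 1) * (d (v j) - d (v j₁)) :=
        mul_le_mul_of_nonneg_left (by linarith) (by positivity)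
      linarith

theorem IsDeg.unit (h : IsDeg σ τ d) (M : DD m σ τ) : IsUnit M ∨ M = 0 := by
  by_cases h0 : M = 0
  · exact Or.inr h0
  left
  obtain ⟨M, hM⟩ := M
  have h1 : M ≠ 0 := fun h2 => h0 (Subtype.ext h2)
  have h2 : IsUnit M.det := isUnit_iff_ne_zero.2 (h.det_ne M hM h1)
  have e1 : M * M⁻¹ = 1 := Matrix.mul_nonsing_inv M h2
  have e2 : M⁻¹ * M = 1 := Matrix.nonsing_inv_mul M h2
  have h3 : M⁻¹ ∈ DD m σ τ := by
    change σ.mapMatrix M⁻¹ * PP m τ = PP m τ * M⁻¹
    have e3 : σ.mapMatrix M * PP m τ = PP m τ * M := hM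
    have e4 : σ.mapMatrix M⁻¹ * σ.mapMatrix M = 1 := by rw [← map_mul, e2, map_one]
    calc σ.mapMatrix M⁻¹ * PP m τ = σ.mapMatrix M⁻¹ * (PP m τ * M) * M⁻¹ := by
          rw [mul_assoc, mul_assoc, e1, mul_one]
      _ = σ.mapMatrix M⁻¹ * σ.mapMatrix M * PP m τ * M⁻¹ := by rw [← e3, ← mul_assoc]
      _ = PP m τ * M⁻¹ := by rw [e4, one_mul]
  exact ⟨⟨⟨M, hM⟩, ⟨M⁻¹, h3⟩, Subtype.ext e1, Subtype.ext e2⟩, rfl⟩

end abs

section spec

open Q38.GE

/-- the matrices with prescribed entries on the cycle -/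
def YY {S : Type} [CommRing S] {n m : ℕ} (y : Fin n → Fin (m + 1) → S) (t : S) (j : Fin n) :
    Matrix (Fin (m + 1)) (Fin (m + 1)) S := fun i k => if k = i + 1 then y j i * cc t i else 0

theorem YY_mul {S : Type} [CommRing S] {n m : ℕ} (y : Fin n → Fin (m + 1) → S) (t : S) (j : Fin n)
    (M : Matrix (Fin (m + 1)) (Fin (m + 1)) S) (i k : Fin (m + 1)) :
    (YY y t j * M) i k = y j i * cc t i * M (i + 1) k := by
  rw [Matrix.mul_apply, Finset.sum_eq_single (i + 1)]
  · simp [YY]
  · intro b _ hb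
    simp [YY, hb]
  · intro h
    exact absurd (Finset.mem_univ _) h

/-- indicator of the word `l` -/
def yl (K : Type) [Field K] {n : ℕ} (l : List (Fin n)) (j : Fin n) (i : Fin (l.length + 1)) : K :=
  if l[(i : ℕ)]? = some j then 1 else 0

theorem prod_entry (K : Type) [Field K] {n : ℕ} (l w : List (Fin n)) : ∀ i : Fin (l.length + 1),
    ((w.map (YY (yl K l) 0)).prod) i (Fin.last _) = if w = l.drop i then 1 else 0 := by
  induction w with
  | nil =>
    intro i
    rw [List.map_nil, List.prod_nil, Matrix.one_apply]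
    by_cases hi : i = Fin.last _
    · rw [if_pos hi, if_pos]
      subst hi
      simp
    · rw [if_neg hi, if_neg]
      intro h
      have h1 : l.length ≤ (i : ℕ) := by
        rw [eq_comm, List.drop_eq_nil_iff] at h
        exact h
      exact hi (Fin.ext (by have := i.2; simp; omega))
  | cons j w ih =>
    intro i
    rw [List.map_cons, List.prod_cons, YY_mul]
    unfold cc
    by_cases hi : i = Fin.last _
    · rw [if_pos hi, mul_zero, zero_mul, if_neg]
      subst hi
      simp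
    · rw [if_neg hi, mul_one, ih]
      have hi' : (i : ℕ) < l.length := by
        have h1 := i.2
        have h2 : (i : ℕ) ≠ l.length := fun h => hi (Fin.ext (by simp [h]))
        omega
      have hv : ((i + 1 : Fin (l.length + 1)) : ℕ) = (i : ℕ) + 1 :=
        Fin.val_add_one_of_lt (lt_of_le_of_ne (Fin.le_last i) hi)
      rw [hv]
      unfold yl
      rw [List.getElem?_eq_getElem hi', List.drop_eq_getElem_cons hi']
      by_cases h1 : l[(i : ℕ)] = j
      · simp [h1]
      · have h2 : ¬ (j :: w = l[(i : ℕ)] :: l.drop ((i : ℕ) + 1)) := fun h => h1 (List.cons.inj h).1.symm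
        rw [if_neg h2, if_neg (by simpa using h1), zero_mul]

theorem ev_eq (K : Type) [Field K] {n : ℕ} {R : Type} [Ring R] [Algebra K R] (X : Fin n → R) (a : A K n) :
    ev X a = MonoidAlgebra.lift K R (FreeMonoid (Fin n)) (FreeMonoid.lift X)
      (FreeAlgebra.equivMonoidAlgebraFreeMonoid (R := K) (X := Fin n) a) := by
  have h : ev (K := K) X = (MonoidAlgebra.lift K R (FreeMonoid (Fin n)) (FreeMonoid.lift X)).comp
      (FreeAlgebra.equivMonoidAlgebraFreeMonoid (R := K) (X := Fin n)).toAlgHom := by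
    refine FreeAlgebra.hom_ext (funext fun i => ?_)
    simp [ev, FreeAlgebra.equivMonoidAlgebraFreeMonoid]
  rw [h]
  rfl

theorem exists_spec (K : Type) [Field K] {n : ℕ} (a : A K n) (ha : a ≠ 0) :
    ∃ l : List (Fin n), ev (K := K) (YY (yl K l) 0) a ≠ 0 := by
  classical
  set e := FreeAlgebra.equivMonoidAlgebraFreeMonoid (R := K) (X := Fin n) with he
  have hb : e a ≠ 0 := by simpa using ha
  obtain ⟨l, hl⟩ : ∃ l : FreeMonoid (Fin n), (e a).coeff l ≠ 0 := by
    by_contra hcon
    push Not at hcon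
    exact hb (MonoidAlgebra.ext (Finsupp.ext hcon))
  refine ⟨FreeMonoid.toList l, fun h0 => hl ?_⟩
  have h1 := congrFun (congrFun h0 0) (Fin.last _)
  rw [ev_eq, ← he, MonoidAlgebra.lift_apply, Finsupp.sum, Matrix.sum_apply] at h1
  have h2 : ∀ w : FreeMonoid (Fin n), FreeMonoid.lift (YY (yl K (FreeMonoid.toList l)) 0) w 0 (Fin.last _) =
      if w = l then (1 : K) else 0 := by
    intro w
    have h3 := prod_entry K (FreeMonoid.toList l) (FreeMonoid.toList w) 0
    rw [FreeMonoid.lift_apply, h3]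
    simp
  simp only [Matrix.smul_apply, h2, smul_eq_mul, mul_ite, mul_one, mul_zero] at h1
  rw [Finset.sum_ite_eq'] at h1
  by_contra hl2
  rw [if_pos (Finsupp.mem_support_iff.2 hl2)] at h1
  exact hl2 h1

theorem ev_map (K : Type) [Field K] {n : ℕ} {R S : Type} [Ring R] [Algebra K R] [Ring S] [Algebra K S]
    (f : R →ₐ[K] S) (X : Fin n → R) (a : A K n) : f (ev X a) = ev (fun i => f (X i)) a := by
  have h : f.comp (ev (K := K) X) = ev (K := K) (fun i => f (X i)) := by
    refine FreeAlgebra.hom_ext (funext fun i => ?_)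
    simp [ev]
  exact congrArg (fun g => g a) h

end spec

section field

variable (K : Type) [Field K] (n m : ℕ)

/-- the polynomial ring -/
abbrev Pn : Type := MvPolynomial (Fin n × Fin (m + 1)) K

/-- its field of fractions -/
abbrev Fn : Type := FractionRing (Pn K n m)

/-- the rational functions in `τ` -/
abbrev En : Type := RatFunc (Fn K n m)

/-- the shift on polynomials -/
def σP : Pn K n m →ₐ[K] Pn K n m := MvPolynomial.rename fun p => (p.1, p.2 + 1)

theorem σP_inj : Function.Injective (σP K n m) := by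
  refine MvPolynomial.rename_injective _ ?_
  rintro ⟨a, b⟩ ⟨c, d⟩ h
  simp only [Prod.mk.injEq, add_left_inj] at h
  exact Prod.ext h.1 h.2

/-- the inclusion -/
def iP : Pn K n m →ₐ[K] Fn K n m := IsScalarTower.toAlgHom K (Pn K n m) (Fn K n m)

theorem iP_inj : Function.Injective (iP K n m) := IsFractionRing.injective (Pn K n m) (Fn K n m)

theorem σP'_inj : Function.Injective ((iP K n m).comp (σP K n m)) :=
  (iP_inj K n m).comp (σP_inj K n m)

/-- the shift on the field of fractions -/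
def σF : Fn K n m →ₐ[K] Fn K n m := IsFractionRing.liftAlgHom (σP'_inj K n m)

theorem σF_iP (p : Pn K n m) : σF K n m (iP K n m p) = iP K n m (σP K n m p) :=
  IsFractionRing.lift_algebraMap (σP'_inj K n m) p

/-- the inclusion of the polynomials in `τ` -/
def iE : Polynomial (Fn K n m) →ₐ[K] En K n m := IsScalarTower.toAlgHom K (Polynomial (Fn K n m)) (En K n m)

theorem iE_inj : Function.Injective (iE K n m) := IsFractionRing.injective (Polynomial (Fn K n m)) (En K n m)

theorem σE'_inj : Function.Injective ((iE K n m).comp (Polynomial.mapAlgHom (σF K n m))) :=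
  (iE_inj K n m).comp (Polynomial.map_injective _ (σF K n m).toRingHom.injective)

/-- the shift on `E` -/
def σE : En K n m →ₐ[K] En K n m := IsFractionRing.liftAlgHom (σE'_inj K n m)

theorem σE_iE (p : Polynomial (Fn K n m)) : σE K n m (iE K n m p) = iE K n m (p.map (σF K n m).toRingHom) :=
  IsFractionRing.lift_algebraMap (σE'_inj K n m) p

/-- the variable `τ` -/
def τE : En K n m := iE K n m Polynomial.X

theorem isDeg : IsDeg (σE K n m) (τE K n m) RatFunc.intDegree where
  mul := fun x y hx hy => RatFunc.intDegree_mul hx hy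
  add := fun x y _ hy hxy => RatFunc.intDegree_add_le hy hxy
  map := by
    intro x hx
    obtain ⟨p, q, hq, rfl⟩ := IsFractionRing.div_surjective (A := Polynomial (Fn K n m)) x
    have hq0 : q ≠ 0 := nonZeroDivisors.ne_zero hq
    have hp0 : p ≠ 0 := by
      rintro rfl
      simp at hx
    have h1 : ∀ r : Polynomial (Fn K n m), algebraMap (Polynomial (Fn K n m)) (En K n m) r = iE K n m r := fun r => rfl
    have h2 : ∀ r : Polynomial (Fn K n m), r ≠ 0 → iE K n m r ≠ 0 := fun r hr => (map_ne_zero_iff _ (iE_inj K n m)).2 hr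
    have h3 : ∀ r : Polynomial (Fn K n m), r ≠ 0 → r.map (σF K n m).toRingHom ≠ 0 := fun r hr =>
      (Polynomial.map_ne_zero_iff (σF K n m).toRingHom.injective).2 hr
    rw [h1, h1, map_div₀, σE_iE, σE_iE, RatFunc.intDegree_div (h2 _ (h3 _ hp0)) (h2 _ (h3 _ hq0)),
      RatFunc.intDegree_div (h2 _ hp0) (h2 _ hq0), ← h1, ← h1, ← h1, ← h1, RatFunc.intDegree_polynomial,
      RatFunc.intDegree_polynomial, RatFunc.intDegree_polynomial, RatFunc.intDegree_polynomial,
      Polynomial.natDegree_map, Polynomial.natDegree_map]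
  tau0 := (map_ne_zero_iff _ (iE_inj K n m)).2 Polynomial.X_ne_zero
  tau := by
    have h : τE K n m = RatFunc.X := rfl
    rw [h, RatFunc.intDegree_X]

/-- the map from `K[s][τ]` to `E` -/
def iR : Polynomial (Pn K n m) →ₐ[K] En K n m := (iE K n m).comp (Polynomial.mapAlgHom (iP K n m))

theorem iR_inj : Function.Injective (iR K n m) :=
  (iE_inj K n m).comp (Polynomial.map_injective _ (iP_inj K n m))

theorem iR_X : iR K n m Polynomial.X = τE K n m := by
  simp [iR, τE]

theorem σE_τE : σE K n m (τE K n m) = τE K n m := by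
  rw [τE, σE_iE, Polynomial.map_X]

/-- the variables -/
def sv (j : Fin n) (i : Fin (m + 1)) : Polynomial (Pn K n m) := Polynomial.C (MvPolynomial.X (j, i))

theorem σE_sv (j : Fin n) (i : Fin (m + 1)) : σE K n m (iR K n m (sv K n m j i)) = iR K n m (sv K n m j (i + 1)) := by
  have h1 : ∀ p : Pn K n m, iR K n m (Polynomial.C p) = iE K n m (Polynomial.C (iP K n m p)) := by
    intro p
    simp [iR]
  rw [sv, sv, h1, h1, σE_iE, Polynomial.map_C]
  have h2 : (σF K n m).toRingHom (iP K n m (MvPolynomial.X (j, i))) = iP K n m (MvPolynomial.X (j, i + 1)) := by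
    have := σF_iP K n m (MvPolynomial.X (j, i))
    rw [σP, MvPolynomial.rename_X] at this
    exact this
  rw [h2]

/-- the matrices `Y_j` over the polynomials -/
def YR (j : Fin n) : Matrix (Fin (m + 1)) (Fin (m + 1)) (Polynomial (Pn K n m)) :=
  YY (sv K n m) Polynomial.X j

theorem YR_mem (j : Fin n) : (iR K n m).mapMatrix (YR K n m j) ∈ DD m (σE K n m) (τE K n m) := by
  rw [mem_DD]
  intro i k
  simp only [AlgHom.mapMatrix_apply, Matrix.map_apply, YR, YY]
  by_cases h : k = i + 1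
  · subst h
    have hcc : ∀ i : Fin (m + 1), iR K n m (cc Polynomial.X i) = cc (τE K n m) i := by
      intro i
      unfold cc
      split_ifs
      · exact iR_X K n m
      · exact map_one _
    have hcc2 : ∀ i : Fin (m + 1), σE K n m (cc (τE K n m) i) = cc (τE K n m) i := by
      intro i
      unfold cc
      split_ifs
      · exact σE_τE K n m
      · exact map_one _
    rw [if_pos rfl, if_pos rfl, map_mul, map_mul, map_mul, hcc, hcc, hcc2, σE_sv]
    ring
  · have h' : ¬ (k + 1 = i + 1 + 1) := fun h2 => h (add_right_cancel h2)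
    rw [if_neg h, if_neg h', map_zero, map_zero, zero_mul, mul_zero]

/-- specialization of the variables -/
def sp (y : Fin n → Fin (m + 1) → K) : Polynomial (Pn K n m) →ₐ[K] K :=
  Polynomial.eval₂AlgHom (MvPolynomial.aeval fun p => y p.1 p.2) 0 fun _ => Commute.all _ _

theorem sp_YR (y : Fin n → Fin (m + 1) → K) (j : Fin n) : (sp K n m y).mapMatrix (YR K n m j) = YY y 0 j := by
  ext i k
  simp only [AlgHom.mapMatrix_apply, Matrix.map_apply, YR, YY, cc]
  by_cases h : k = i + 1
  · rw [if_pos h, if_pos h]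
    by_cases h2 : i = Fin.last m
    · rw [if_pos h2, if_pos h2]
      simp [sp, sv]
    · rw [if_neg h2, if_neg h2]
      simp [sp, sv]
  · rw [if_neg h, if_neg h, map_zero]

end field

open Q38.GE in
theorem div : S_DIV := by
  intro K _ n a ha
  obtain ⟨l, hl⟩ := exists_spec K a ha
  set m := l.length with hm
  let D := DD (K := K) m (σE K n m) (τE K n m)
  let iD : DivisionRing D := DivisionRing.ofIsUnitOrEqZero (isDeg K n m).unit
  refine ⟨D, iD, inferInstanceAs (Algebra K D), En K n m, inferInstance, inferInstance, m + 1, D.val,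
    fun j => ⟨(iR K n m).mapMatrix (YR K n m j), YR_mem K n m j⟩, Nat.succ_pos _, ?_⟩
  intro h0
  have h1 : D.val (ev (K := K) (fun j => (⟨(iR K n m).mapMatrix (YR K n m j), YR_mem K n m j⟩ : D)) a) = 0 := by
    rw [h0]
    exact map_zero _
  rw [ev_map K D.val] at h1
  have h2 : (iR K n m).mapMatrix (ev (K := K) (YR K n m) a) = 0 := by
    rw [ev_map (R := Matrix (Fin (m + 1)) (Fin (m + 1)) (Polynomial (Pn K n m)))
      (S := Matrix (Fin (m + 1)) (Fin (m + 1)) (En K n m)) K (iR K n m).mapMatrix]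
    exact h1
  have h3 : ev (K := K) (YR K n m) a = 0 := by
    refine Matrix.ext fun i k => iR_inj K n m ?_
    have := congrFun (congrFun h2 i) k
    simpa using this
  apply hl
  have h4 := ev_map (R := Matrix (Fin (m + 1)) (Fin (m + 1)) (Polynomial (Pn K n m)))
      (S := Matrix (Fin (m + 1)) (Fin (m + 1)) K) K (sp K n m (yl K l)).mapMatrix (YR K n m) a
  rw [h3, map_zero] at h4
  simp only [sp_YR] at h4
  exact h4.symm

end

end Pool.Agent.Q139.GE
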